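import Pool.Agent.Run7.h940.PACH.Iface

set_option autoImplicit false

namespace Run7.h286.PACH

open Finset Run7.h940.PACH

theorem cls_aux : ∀ (k : ℕ) (α : ℝ), 0 < α → ∃ φ : ℝ, 0 < φ ∧
  ∀ (ι A B : Type) [Fintype ι] [DecidableEq ι] [DecidableEq A] [DecidableEq B], Fintype.card ι = k →
    ∀ (C : ι → Finset A) (G : Finset (ι → A)) (W : (ι → A) → B), (∀ i, (C i).Nonempty) →
      G ⊆ Fintype.piFinset C → α * ∏ i, ((C i).card : ℝ) ≤ G.card →
      (∀ x ∈ G, ∀ x' ∈ G, ∀ i, (∀ j, j ≠ i → x j = x' j) → W x = W x') →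
      ∃ w : B, φ * ∏ i, ((C i).card : ℝ) ≤ ((G.filter (fun x => W x = w)).card : ℝ) := by
  intro k
  induction k with
  | zero =>
    intro α hα
    refine ⟨1, one_pos, ?_⟩
    intro ι A B _ _ _ _ hk C G W hC hG hd hW
    have he : IsEmpty ι := Fintype.card_eq_zero_iff.1 hk
    simp only [Finset.univ_eq_empty, Finset.prod_empty, mul_one] at hd ⊢
    have hne : G.Nonempty := by
      rw [← Finset.card_pos]
      have : (0 : ℝ) < G.card := lt_of_lt_of_le hα hd
      exact_mod_cast this
    obtain ⟨x, hx⟩ := hne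
    refine ⟨W x, ?_⟩
    have : 0 < (G.filter (fun y => W y = W x)).card :=
      Finset.card_pos.2 ⟨x, Finset.mem_filter.2 ⟨hx, rfl⟩⟩
    exact_mod_cast this
  | succ k ih =>
    intro α hα
    obtain ⟨φ, hφ, hI⟩ := ih (α / 2) (by positivity)
    refine ⟨φ * (α / 2), by positivity, ?_⟩
    intro ι A B _ _ _ _ hk C G W hC hG hd hW
    have hne : Nonempty ι := Fintype.card_pos_iff.1 (by omega)
    obtain ⟨i0⟩ := hne
    let e := Equiv.funSplitAt i0 A
    let J := {j : ι // j ≠ i0}
    have hJ : Fintype.card J = k := by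
      have : Fintype.card J = Fintype.card ι - 1 := by
        simp only [J]
        rw [Fintype.card_subtype_compl, Fintype.card_subtype_eq]
      omega
    let CJ : J → Finset A := fun j => C j
    set M : ℝ := ((C i0).card : ℝ) with hM
    set P : ℝ := ∏ j : J, ((CJ j).card : ℝ) with hP
    have hMpos : 0 < M := by
      rw [hM]; exact_mod_cast (hC i0).card_pos
    have hPpos : 0 < P := by
      rw [hP]
      exact Finset.prod_pos (fun j _ => by exact_mod_cast (hC j).card_pos)
    have hprod : ∏ i, ((C i).card : ℝ) = M * P := by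
      rw [hM, hP]
      rw [← Fintype.prod_subtype_mul_prod_subtype (fun i => i = i0)]
      simp [CJ]
      rfl
    have hes : ∀ (a : A) (y : J → A) (j : J), e.symm (a, y) j = y j := by
      intro a y j
      simp only [e, Equiv.funSplitAt, Equiv.piSplitAt_symm_apply]
      rw [dif_neg j.2]
    have hes0 : ∀ (a : A) (y : J → A), e.symm (a, y) i0 = a := by
      intro a y
      simp [e, Equiv.funSplitAt]
    let Y : Finset (J → A) := Fintype.piFinset CJ
    have hYc : (Y.card : ℝ) = P := by
      rw [hP]; simp [Y, Fintype.card_piFinset]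
    let ind : A → (J → A) → ℝ := fun a y => if e.symm (a, y) ∈ G then 1 else 0
    have hind0 : ∀ a y, 0 ≤ ind a y := by
      intro a y; simp only [ind]; split_ifs <;> norm_num
    let d : (J → A) → ℝ := fun y => ∑ a ∈ C i0, ind a y
    have hd0 : ∀ y, 0 ≤ d y := fun y => Finset.sum_nonneg (fun a _ => hind0 a y)
    have hGc : (G.card : ℝ) ≤ ∑ y ∈ Y, d y := by
      have h1 : G.card ≤ ((C i0 ×ˢ Y).filter (fun p => e.symm p ∈ G)).card := by
        apply Finset.card_le_card_of_injOn e
        · intro x hx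
          have hx' := Fintype.mem_piFinset.1 (hG hx)
          rw [Finset.mem_coe, Finset.mem_filter, Finset.mem_product]
          refine ⟨⟨hx' i0, ?_⟩, ?_⟩
          · exact Fintype.mem_piFinset.2 (fun j => hx' j)
          · rw [Equiv.symm_apply_apply]; exact hx
        · exact e.injective.injOn
      have h2 : ((((C i0 ×ˢ Y).filter (fun p => e.symm p ∈ G)).card : ℕ) : ℝ) = ∑ y ∈ Y, d y := by
        rw [Finset.card_filter]
        push_cast
        rw [Finset.sum_product_right]
      rw [← h2]
      exact_mod_cast h1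
    let ind' : A → (J → A) → ℝ := fun a y => if e.symm (a, y) ∈ G ∧ α / 2 * M ≤ d y then 1 else 0
    have h3 : ∀ y, d y - α / 2 * M ≤ ∑ a ∈ C i0, ind' a y := by
      intro y
      by_cases hy : α / 2 * M ≤ d y
      · have : ∑ a ∈ C i0, ind' a y = d y := by
          apply Finset.sum_congr rfl
          intro a _
          simp [ind', ind, hy]
        rw [this]
        have : 0 ≤ α / 2 * M := by positivity
        linarith
      · have : 0 ≤ ∑ a ∈ C i0, ind' a y := by
          apply Finset.sum_nonneg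
          intro a _
          simp only [ind']; split_ifs <;> norm_num
        linarith [not_le.1 hy]
    have h4 : ∑ a ∈ C i0, (α / 2 * P) ≤ ∑ a ∈ C i0, ∑ y ∈ Y, ind' a y := by
      rw [Finset.sum_comm]
      have h5 : ∑ y ∈ Y, (d y - α / 2 * M) ≤ ∑ y ∈ Y, ∑ a ∈ C i0, ind' a y :=
        Finset.sum_le_sum (fun y _ => h3 y)
      rw [Finset.sum_sub_distrib, Finset.sum_const, nsmul_eq_mul, hYc] at h5
      rw [Finset.sum_const, nsmul_eq_mul, ← hM]
      rw [hprod] at hd
      nlinarith [hd, hGc, h5]
    obtain ⟨a, ha, h6⟩ := Finset.exists_le_of_sum_le (hC i0) h4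
    let Ga : Finset (J → A) := Y.filter (fun y => e.symm (a, y) ∈ G ∧ α / 2 * M ≤ d y)
    have hGa : α / 2 * ∏ j, ((CJ j).card : ℝ) ≤ (Ga.card : ℝ) := by
      rw [← hP]
      refine h6.trans (le_of_eq ?_)
      simp only [Ga, ind']
      rw [Finset.card_filter]
      push_cast
      rfl
    obtain ⟨w, hw⟩ := hI J A B hJ CJ Ga (fun y => W (e.symm (a, y))) (fun j => hC j)
      (Finset.filter_subset _ _) hGa (by
        intro y hy y' hy' j hj
        apply hW _ (Finset.mem_filter.1 hy).2.1 _ (Finset.mem_filter.1 hy').2.1 j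
        intro i hi
        by_cases h : i = i0
        · subst h; rw [hes0, hes0]
        · have h1 := hes a y ⟨i, h⟩
          have h2 := hes a y' ⟨i, h⟩
          rw [h1, h2]
          apply hj
          intro hh
          apply hi
          rw [← hh])
    refine ⟨w, ?_⟩
    set T := Ga.filter (fun y => W (e.symm (a, y)) = w) with hT
    have h7 : ((C i0 ×ˢ T).filter (fun p => e.symm p ∈ G)).card ≤
        (G.filter (fun x => W x = w)).card := by
      apply Finset.card_le_card_of_injOn e.symm
      · intro p hp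
        rw [Finset.mem_coe, Finset.mem_filter, Finset.mem_product] at hp
        rw [Finset.mem_coe, Finset.mem_filter]
        refine ⟨hp.2, ?_⟩
        obtain ⟨a', y⟩ := p
        have hy := (Finset.mem_filter.1 hp.1.2)
        rw [← hy.2]
        have hy2 := (Finset.mem_filter.1 hy.1).2.1
        apply hW _ hp.2 _ hy2 i0
        intro j hj
        have h1 := hes a' y ⟨j, hj⟩
        have h2 := hes a y ⟨j, hj⟩
        rw [h1, h2]
      · exact e.symm.injective.injOn
    have h8 : ((((C i0 ×ˢ T).filter (fun p => e.symm p ∈ G)).card : ℕ) : ℝ) = ∑ y ∈ T, d y := by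
      rw [Finset.card_filter]
      push_cast
      rw [Finset.sum_product_right]
    have h9 : (T.card : ℝ) * (α / 2 * M) ≤ ∑ y ∈ T, d y := by
      rw [← nsmul_eq_mul, ← Finset.sum_const]
      apply Finset.sum_le_sum
      intro y hy
      exact (Finset.mem_filter.1 (Finset.mem_filter.1 hy).1).2.2
    rw [← hP] at hw
    rw [hprod]
    have h10 : (((G.filter (fun x => W x = w)).card : ℕ) : ℝ) ≥ ∑ y ∈ T, d y := by
      rw [← h8]; exact_mod_cast h7
    have h11 : φ * P * (α / 2 * M) ≤ (T.card : ℝ) * (α / 2 * M) :=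
      mul_le_mul_of_nonneg_right hw (by positivity)
    calc φ * (α / 2) * (M * P) = φ * P * (α / 2 * M) := by ring
      _ ≤ _ := h11
      _ ≤ _ := h9
      _ ≤ _ := h10

theorem t_CLS : S_CLS := by
  classical
  intro k α hα
  obtain ⟨φ, hφ, h⟩ := cls_aux k α hα
  refine ⟨φ, hφ, ?_⟩
  intro ι A B _ _ hk C G W hC hG hd hW
  obtain ⟨w, hw⟩ := h ι A B hk C G W hC hG hd hW
  refine ⟨w, hw.trans (le_of_eq ?_)⟩
  rw [← Set.ncard_coe_finset]
  congr 2
  ext x
  simp

end Run7.h286.PACH
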