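import Pool.Agent.Run7.h940.PACH.Iface

set_option autoImplicit false

namespace Run7.h286.PACH

open Finset Run7.h940.PACH

/-- Concavity. -/
theorem conc (a b p : ℝ) (ha : 0 ≤ a) (hb : 0 ≤ b) (hp : 0 ≤ p) (hp1 : p ≤ 1) :
    a ^ p + b ^ p ≤ 2 ^ (1 - p) * (a + b) ^ p := by
  have h := (Real.concaveOn_rpow hp hp1).2 (Set.mem_Ici.2 ha) (Set.mem_Ici.2 hb)
    (by norm_num : (0 : ℝ) ≤ 1 / 2) (by norm_num : (0 : ℝ) ≤ 1 / 2) (by norm_num)
  simp only [smul_eq_mul] at h
  have h2 : (1 / 2 * a + 1 / 2 * b) ^ p = (1 / 2) ^ p * (a + b) ^ p := by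
    rw [← Real.mul_rpow (by norm_num) (by linarith)]; congr 1; ring
  have h3 : (2 : ℝ) ^ (1 - p) = 2 * (1 / 2) ^ p := by
    rw [Real.rpow_sub (by norm_num), Real.rpow_one, one_div, Real.inv_rpow (by norm_num)]
    rfl
  rw [h2] at h
  rw [h3]
  nlinarith [h]

/-- The exponent. -/
theorem ex_beta (k : ℕ) (γ : ℝ) (hγ : 0 < γ) : ∃ β : ℝ, 0 < β ∧ β < 1 ∧
    (2 : ℝ) ^ (β * k) < 1 + γ ^ k := by
  have hc : Filter.Tendsto (fun β : ℝ => (2 : ℝ) ^ (β * k)) (nhdsWithin 0 (Set.Ioi 0)) (nhds 1) := by
    have h1 : Continuous (fun β : ℝ => (2 : ℝ) ^ (β * k)) := by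
      apply Continuous.rpow continuous_const (by fun_prop)
      intro x; left; norm_num
    have := h1.tendsto 0
    simp only [zero_mul, Real.rpow_zero] at this
    exact this.mono_left nhdsWithin_le_nhds
  have h2 : ∀ᶠ β : ℝ in nhdsWithin (0 : ℝ) (Set.Ioi 0), (2 : ℝ) ^ (β * (k : ℝ)) < 1 + γ ^ k := by
    apply hc.eventually_lt_const
    have : 0 < γ ^ k := by positivity
    linarith
  have h3 : ∀ᶠ β in nhdsWithin (0 : ℝ) (Set.Ioi 0), β < 1 :=
    (nhdsWithin_le_nhds) (Iio_mem_nhds one_pos)
  have h4 : ∀ᶠ β in nhdsWithin (0 : ℝ) (Set.Ioi 0), 0 < β := self_mem_nhdsWithin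
  obtain ⟨β, h⟩ := (h2.and (h3.and h4)).exists
  exact ⟨β, h.2.2, h.2.1, h.1⟩

theorem reg_aux (k : ℕ) (α γ : ℝ) (hα : 0 < α) (hγ : 0 < γ) (hγ1 : γ ≤ 1) : ∃ c : ℝ, 0 < c ∧
  ∀ (ι A : Type) [Fintype ι] [DecidableEq ι] [DecidableEq A], Fintype.card ι = k →
    ∀ (C : ι → Finset A) (G : Finset (ι → A)), (∀ i, (C i).Nonempty) →
      G ⊆ Fintype.piFinset C → α * ∏ i, ((C i).card : ℝ) ≤ G.card →
      ∃ D : ι → Finset A,
        (∀ i, D i ⊆ C i ∧ (D i).Nonempty ∧ c * ((C i).card : ℝ) ≤ ((D i).card : ℝ)) ∧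
        ∀ E : ι → Finset A, (∀ i, E i ⊆ D i) → (∀ i, γ * ((D i).card : ℝ) ≤ ((E i).card : ℝ)) →
          ∃ x ∈ G, ∀ i, x i ∈ E i := by
  obtain ⟨β, hβ0, hβ1, hβ⟩ := ex_beta k γ hγ
  refine ⟨α ^ (1 / β), by positivity, ?_⟩
  intro ι A _ _ _ hk C G hC hG hd
  set q : ℝ := 1 - β with hq
  have hq0 : 0 < q := by rw [hq]; linarith
  let N : (ι → Finset A) → ℝ := fun D => ((G.filter (fun x => ∀ i, x i ∈ D i)).card : ℝ)
  let pr : (ι → Finset A) → ℝ := fun D => ∏ i, ((D i).card : ℝ) ^ q
  have hpr0 : ∀ D, 0 ≤ pr D := fun D => Finset.prod_nonneg (fun i _ => by positivity)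
  let Φ : (ι → Finset A) → ℝ := fun D => N D / pr D
  let Bx : Finset (ι → Finset A) := Fintype.piFinset (fun i => (C i).powerset)
  have hCB : C ∈ Bx := Fintype.mem_piFinset.2 (fun i => Finset.mem_powerset.2 (Finset.Subset.refl _))
  obtain ⟨D, hDB, hmax⟩ := Finset.exists_max_image Bx Φ ⟨C, hCB⟩
  have hDC : ∀ i, D i ⊆ C i := fun i => Finset.mem_powerset.1 (Fintype.mem_piFinset.1 hDB i)
  have hNempty : ∀ F : ι → Finset A, (∃ i, F i = ∅) → N F = 0 := by
    rintro F ⟨i, hi⟩
    simp only [N]
    rw [Finset.filter_false_of_mem]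
    · simp
    · intro x _ hx
      have := hx i
      rw [hi] at this
      simp at this
  have hprpos : ∀ F : ι → Finset A, (∀ i, (F i).Nonempty) → 0 < pr F := by
    intro F hF
    exact Finset.prod_pos (fun i _ => Real.rpow_pos_of_pos (by exact_mod_cast (hF i).card_pos) _)
  have hΦC : 0 < Φ C := by
    have h1 : 0 < N C := by
      have h2 : G.filter (fun x => ∀ i, x i ∈ C i) = G :=
        Finset.filter_true_of_mem (fun x hx => Fintype.mem_piFinset.1 (hG hx))
      simp only [N]
      rw [h2]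
      refine lt_of_lt_of_le ?_ hd
      exact mul_pos hα (Finset.prod_pos (fun i _ => by exact_mod_cast (hC i).card_pos))
    exact div_pos h1 (hprpos C hC)
  have hΦD : 0 < Φ D := lt_of_lt_of_le hΦC (hmax C hCB)
  have hDne : ∀ i, (D i).Nonempty := by
    intro i
    rw [Finset.nonempty_iff_ne_empty]
    intro h
    have : N D = 0 := hNempty D ⟨i, h⟩
    have : Φ D = 0 := by simp only [Φ]; rw [this]; simp
    linarith
  have hN : ∀ F : ι → Finset A, (∀ i, F i ⊆ D i) → N F ≤ Φ D * pr F := by
    intro F hF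
    by_cases h : ∀ i, (F i).Nonempty
    · have h1 : Φ F ≤ Φ D := hmax F (Fintype.mem_piFinset.2
        (fun i => Finset.mem_powerset.2 ((hF i).trans (hDC i))))
      exact (div_le_iff₀ (hprpos F h)).1 h1
    · push Not at h
      rw [hNempty F h]
      exact mul_nonneg hΦD.le (hpr0 F)
  refine ⟨D, ?_, ?_⟩
  · intro i
    refine ⟨hDC i, hDne i, ?_⟩
    -- product inequality
    have hb : ∀ F : ι → Finset A, (∀ i, (F i).Nonempty) →
        (∏ i, ((F i).card : ℝ)) = pr F * ∏ i, ((F i).card : ℝ) ^ β := by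
      intro F hF
      simp only [pr]
      rw [← Finset.prod_mul_distrib]
      apply Finset.prod_congr rfl
      intro j _
      rw [← Real.rpow_add (by exact_mod_cast (hF j).card_pos), hq]
      simp
    have h1 : α * ∏ i, ((C i).card : ℝ) ^ β ≤ Φ C := by
      simp only [Φ]
      rw [le_div_iff₀ (hprpos C hC)]
      have h2 : G.filter (fun x => ∀ i, x i ∈ C i) = G :=
        Finset.filter_true_of_mem (fun x hx => Fintype.mem_piFinset.1 (hG hx))
      simp only [N]
      rw [h2]
      rw [hb C hC] at hd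
      linarith
    have h2 : Φ D ≤ ∏ i, ((D i).card : ℝ) ^ β := by
      simp only [Φ]
      rw [div_le_iff₀ (hprpos D hDne), mul_comm, ← hb D hDne]
      have h3 : (G.filter (fun x => ∀ i, x i ∈ D i)) ⊆ Fintype.piFinset D := by
        intro x hx
        exact Fintype.mem_piFinset.2 (Finset.mem_filter.1 hx).2
      have h4 := Finset.card_le_card h3
      rw [Fintype.card_piFinset] at h4
      simp only [N]
      exact_mod_cast h4
    have h3 : α * ∏ i, ((C i).card : ℝ) ^ β ≤ ∏ i, ((D i).card : ℝ) ^ β :=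
      h1.trans ((hmax C hCB).trans h2)
    rw [← Finset.mul_prod_erase _ _ (Finset.mem_univ i),
      ← Finset.mul_prod_erase (f := fun i => ((D i).card : ℝ) ^ β) _ (Finset.mem_univ i)] at h3
    have h4 : ∏ j ∈ Finset.univ.erase i, ((D j).card : ℝ) ^ β ≤
        ∏ j ∈ Finset.univ.erase i, ((C j).card : ℝ) ^ β := by
      apply Finset.prod_le_prod
      · intro j _; positivity
      · intro j _
        apply Real.rpow_le_rpow (by positivity) _ hβ0.le
        exact_mod_cast Finset.card_le_card (hDC j)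
    have h5 : 0 < ∏ j ∈ Finset.univ.erase i, ((D j).card : ℝ) ^ β :=
      Finset.prod_pos (fun j _ => Real.rpow_pos_of_pos (by exact_mod_cast (hDne j).card_pos) _)
    have h6 : α * ((C i).card : ℝ) ^ β ≤ ((D i).card : ℝ) ^ β := by
      by_contra hcon
      push Not at hcon
      have h7 : ((D i).card : ℝ) ^ β * ∏ j ∈ Finset.univ.erase i, ((D j).card : ℝ) ^ β <
          α * ((C i).card : ℝ) ^ β * ∏ j ∈ Finset.univ.erase i, ((D j).card : ℝ) ^ β :=
        mul_lt_mul_of_pos_right hcon h5
      have h8 : α * ((C i).card : ℝ) ^ β * ∏ j ∈ Finset.univ.erase i, ((D j).card : ℝ) ^ β ≤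
          α * ((C i).card : ℝ) ^ β * ∏ j ∈ Finset.univ.erase i, ((C j).card : ℝ) ^ β :=
        mul_le_mul_of_nonneg_left h4 (by positivity)
      nlinarith [h7, h8, h3]
    have h7 := Real.rpow_le_rpow (by positivity) h6 (by positivity : 0 ≤ 1 / β)
    rw [Real.mul_rpow hα.le (by positivity), ← Real.rpow_mul (by positivity),
      ← Real.rpow_mul (by positivity), mul_one_div_cancel hβ0.ne', Real.rpow_one,
      Real.rpow_one] at h7
    exact h7
  · intro E hED hE
    by_contra hcon
    push Not at hcon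
    -- splitting
    let F : Finset ι → ι → Finset A := fun S i => if i ∈ S then E i else D i \ E i
    have hFD : ∀ S i, F S i ⊆ D i := by
      intro S i
      simp only [F]
      split_ifs
      · exact hED i
      · exact Finset.sdiff_subset
    have h1 : N D ≤ ∑ S ∈ (Finset.univ : Finset (Finset ι)).erase Finset.univ, N (F S) := by
      have h2 := Finset.card_eq_sum_card_fiberwise (s := G.filter (fun x => ∀ i, x i ∈ D i))
        (t := (Finset.univ : Finset (Finset ι)))
        (f := fun x => Finset.univ.filter (fun i => x i ∈ E i)) (by intro x _; simp)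
      have h3 : N D = ∑ S : Finset ι, (((G.filter (fun x => ∀ i, x i ∈ D i)).filter
          (fun x => Finset.univ.filter (fun i => x i ∈ E i) = S)).card : ℝ) := by
        simp only [N]; rw [h2]; push_cast; rfl
      rw [h3, ← Finset.add_sum_erase _ _ (Finset.mem_univ (Finset.univ : Finset ι))]
      have h4 : ((G.filter (fun x => ∀ i, x i ∈ D i)).filter
          (fun x => Finset.univ.filter (fun i => x i ∈ E i) = Finset.univ)) = ∅ := by
        apply Finset.filter_false_of_mem
        intro x hx hh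
        obtain ⟨i, hi⟩ := hcon x (Finset.mem_filter.1 hx).1
        have : i ∈ Finset.univ.filter (fun i => x i ∈ E i) := by rw [hh]; simp
        exact hi (Finset.mem_filter.1 this).2
      rw [h4, Finset.card_empty, Nat.cast_zero, zero_add]
      apply Finset.sum_le_sum
      intro S _
      simp only [N]
      have : ((G.filter (fun x => ∀ i, x i ∈ D i)).filter
          (fun x => Finset.univ.filter (fun i => x i ∈ E i) = S)) ⊆
          G.filter (fun x => ∀ i, x i ∈ F S i) := by
        intro x hx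
        rw [Finset.mem_filter, Finset.mem_filter] at hx
        rw [Finset.mem_filter]
        refine ⟨hx.1.1, ?_⟩
        intro i
        simp only [F]
        split_ifs with h
        · rw [← hx.2] at h
          exact (Finset.mem_filter.1 h).2
        · rw [← hx.2] at h
          rw [Finset.mem_sdiff]
          refine ⟨hx.1.2 i, ?_⟩
          intro h'
          exact h (Finset.mem_filter.2 ⟨Finset.mem_univ i, h'⟩)
      exact_mod_cast Finset.card_le_card this
    have h2 : N D ≤ Φ D * (∑ S : Finset ι, pr (F S) - pr E) := by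
      refine h1.trans ?_
      have h3 : ∑ S : Finset ι, pr (F S) - pr E =
          ∑ S ∈ (Finset.univ : Finset (Finset ι)).erase Finset.univ, pr (F S) := by
        rw [← Finset.add_sum_erase _ _ (Finset.mem_univ (Finset.univ : Finset ι))]
        have : F Finset.univ = E := by
          funext i; simp [F]
        rw [this]; ring
      rw [h3, Finset.mul_sum]
      exact Finset.sum_le_sum (fun S _ => hN (F S) (hFD S))
    have h3 : N D = Φ D * pr D := by
      simp only [Φ]
      rw [div_mul_cancel₀ _ (hprpos D hDne).ne']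
    have h4 : pr D ≤ ∑ S : Finset ι, pr (F S) - pr E := by
      rw [h3] at h2
      exact le_of_mul_le_mul_left h2 hΦD
    have h5 : ∑ S : Finset ι, pr (F S) =
        ∏ i, (((E i).card : ℝ) ^ q + ((D i \ E i).card : ℝ) ^ q) := by
      rw [Finset.prod_add, Finset.powerset_univ]
      apply Finset.sum_congr rfl
      intro S _
      simp only [pr, F]
      rw [← Finset.prod_sdiff (Finset.subset_univ S), mul_comm]
      congr 1
      · apply Finset.prod_congr rfl
        intro i hi
        rw [if_pos hi]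
      · apply Finset.prod_congr rfl
        intro i hi
        rw [if_neg (Finset.mem_sdiff.1 hi).2]
    have h6 : ∏ i, (((E i).card : ℝ) ^ q + ((D i \ E i).card : ℝ) ^ q) ≤
        ∏ i, (2 ^ β * ((D i).card : ℝ) ^ q) := by
      apply Finset.prod_le_prod
      · intro i _
        exact add_nonneg (Real.rpow_nonneg (Nat.cast_nonneg _) _) (Real.rpow_nonneg (Nat.cast_nonneg _) _)
      · intro i _
        have := conc ((E i).card : ℝ) ((D i \ E i).card : ℝ) q (Nat.cast_nonneg _) (Nat.cast_nonneg _)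
          hq0.le (by rw [hq]; linarith)
        have h7 : ((E i).card : ℝ) + ((D i \ E i).card : ℝ) = ((D i).card : ℝ) := by
          have := Finset.card_sdiff_add_card_eq_card (hED i)
          rw [add_comm]
          exact_mod_cast this
        rw [h7] at this
        have h8 : 1 - q = β := by rw [hq]; ring
        rw [h8] at this
        exact this
    have h7 : ∏ i : ι, ((2 : ℝ) ^ β * ((D i).card : ℝ) ^ q) = 2 ^ (β * k) * pr D := by
      rw [Finset.prod_mul_distrib, Finset.prod_const, Finset.card_univ, hk, Real.rpow_mul (by norm_num),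
        Real.rpow_natCast]
    have h8 : γ ^ k * pr D ≤ pr E := by
      have h9 : γ ^ k * pr D = ∏ i : ι, (γ * ((D i).card : ℝ) ^ q) := by
        rw [Finset.prod_mul_distrib, Finset.prod_const, Finset.card_univ, hk]
      rw [h9]
      apply Finset.prod_le_prod
      · intro i _; exact mul_nonneg hγ.le (Real.rpow_nonneg (Nat.cast_nonneg _) _)
      · intro i _
        have h10 : (γ * ((D i).card : ℝ)) ^ q ≤ ((E i).card : ℝ) ^ q :=
          Real.rpow_le_rpow (mul_nonneg hγ.le (Nat.cast_nonneg _)) (hE i) hq0.le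
        rw [Real.mul_rpow hγ.le (Nat.cast_nonneg _)] at h10
        have h11 : γ ≤ γ ^ q := by
          have := Real.rpow_le_rpow_of_exponent_ge hγ hγ1 (show q ≤ 1 by rw [hq]; linarith)
          rwa [Real.rpow_one] at this
        refine le_trans ?_ h10
        exact mul_le_mul_of_nonneg_right h11 (Real.rpow_nonneg (Nat.cast_nonneg _) _)
    have hprD := hprpos D hDne
    rw [h5] at h4
    nlinarith [h4, h6, h7, h8, hβ, hprD]

theorem t_REG : S_REG := by
  classical
  intro k α γ hα hγ
  obtain ⟨c, hc, h⟩ := reg_aux k α (min γ 1) hα (lt_min hγ one_pos) (min_le_right _ _)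
  refine ⟨c, hc, ?_⟩
  intro ι A _ _ hk C G hC hG hd
  obtain ⟨D, h1, h2⟩ := h ι A hk C G hC hG hd
  refine ⟨D, h1, ?_⟩
  intro E hE hE2
  apply h2 E hE
  intro i
  refine le_trans ?_ (hE2 i)
  exact mul_le_mul_of_nonneg_right (min_le_left _ _) (by positivity)

end Run7.h286.PACH
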